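import Pool.Agent.UY.THeavy

/-!
The theorem for programs with forks (tables with two arguments, several cells per node).
-/

set_option autoImplicit false

namespace Pool.Agent.UY

open Finset Pool.Agent.UW

/-- Labelings accepted by a tree of size `< m` that reads at most `r` irrelevant entries. -/
def TFrugal {l w K p : ℕ} {S : Type} (B : Prog (Entry l w K p) (ZMod p) S) (r m : ℕ)
    (D : Lab l (w * K) p) : Prop :=
  ∃ T, AccTree B (inp D) T ∧ tsize T < m ∧ (treads T \ relevant (inp D)).encard ≤ r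

/-- The numbers of the theorem. -/
theorem tmain_num {N F a hv lt W T0 t c1 c2 c3 : ℕ} (hF : F ≤ c1 + c2 + c3) (hc1 : c1 ≤ a * W)
    (hc2 : c2 ≤ (N - lt) * W) (hc3 : c3 ≤ lt * (2 * T0)) (ha : a ≤ hv + lt) (hlt : lt ≤ N)
    (hh : 2 ^ t * hv ≤ N) (hW : 128 * T0 ≤ W) :
    (F : ℝ) ≤ (1 / 2 + 1 / 128 + 1 / 2 ^ (t + 1)) * ((N * (W * 2) : ℕ) : ℝ) := by
  have hnat : F ≤ (hv + lt) * W + (N - lt) * W + lt * (2 * T0) := by
    calc F ≤ c1 + c2 + c3 := hF
      _ ≤ a * W + (N - lt) * W + lt * (2 * T0) := by omega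
      _ ≤ _ := by gcongr
  have hnat2 : F ≤ hv * W + N * W + N * (2 * T0) := by
    have h5 : (hv + lt) * W + (N - lt) * W = hv * W + N * W := by
      have : N = (N - lt) + lt := by omega
      calc (hv + lt) * W + (N - lt) * W = hv * W + ((N - lt) + lt) * W := by ring
        _ = _ := by rw [← this]
    have h6 : lt * (2 * T0) ≤ N * (2 * T0) := Nat.mul_le_mul_right _ hlt
    omega
  have hreal : (F : ℝ) ≤ hv * W + N * W + N * (2 * T0) := by exact_mod_cast hnat2
  have hhr : (2 : ℝ) ^ t * hv ≤ N := by exact_mod_cast hh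
  have hWr : (128 : ℝ) * T0 ≤ W := by exact_mod_cast hW
  have h2t : (0 : ℝ) < 2 ^ t := by positivity
  have hhr' : (hv : ℝ) ≤ N / 2 ^ t := by
    rw [le_div_iff₀ h2t]; linarith
  have hfin : (hv : ℝ) * W ≤ N / 2 ^ t * W :=
    mul_le_mul_of_nonneg_right hhr' (by positivity)
  calc (F : ℝ) ≤ hv * W + N * W + N * (2 * T0) := hreal
    _ ≤ N / 2 ^ t * W + N * W + N * (2 * T0) := by linarith
    _ ≤ N / 2 ^ t * W + N * W + N * (2 * (W / 128)) := by
      have hN0 : (0 : ℝ) ≤ N := by positivity
      have : (T0 : ℝ) ≤ W / 128 := by linarith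
      nlinarith
    _ = (1 / 2 + 1 / 128 + 1 / 2 ^ (t + 1)) * ((N * (W * 2) : ℕ) : ℝ) := by
      push_cast
      rw [pow_succ]
      field_simp
      ring

/-- The theorem for networks with `l` rows, trees of size `< 2 ^ l` and `2 ^ t` states. -/
theorem tmain {l t R w K A r p : ℕ} [Fact p.Prime] {S : Type} [Fintype S]
    (ht : 0 < t) (hl : l ≤ 2 ^ t) (hK : K ≤ 2 ^ t) (hK0 : 0 < K)
    (hW : 128 * (t * K + R) ≤ w * K) (hp : 3 * w ≤ p)
    (hr : 288 * ((A + 1) * (2 * r + 1)) ≤ (p - 1) ^ 2)
    (B : Prog (Entry l w K p) (ZMod p) S) (hS : Fintype.card S ≤ 2 ^ t)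
    (hB : FewWastefulTrees B A R) :
    (({ω : Lab l (w * K) p × Fin (w * K) × Bool |
        RightTree B r (2 ^ l) (if ω.2.2 then inp ω.1 else bad ω.1 ω.2.1)}.ncard : ℕ) : ℝ) ≤
      (1 / 2 + 1 / 128 + 1 / 2 ^ (t + 1)) *
        Nat.card (Lab l (w * K) p × Fin (w * K) × Bool) ∧
    ((∀ x, ¬ Yes x → ∀ T, ¬ AccTree B x T) →
      (({D : Lab l (w * K) p | ∃ T, AccTree B (inp D) T ∧ tsize T < 2 ^ l ∧
        (treads T \ relevant (inp D)).encard ≤ r}.ncard : ℕ) : ℝ) ≤
      1 / 2 ^ t * Nat.card (Lab l (w * K) p)) := by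
  classical
  have hp0 : NeZero p := ⟨(Fact.out : p.Prime).ne_zero⟩
  have htK : 0 < t * K := Nat.mul_pos ht hK0
  have e2 : 2 * t * K = 2 * (t * K) := by ring
  have hw : 0 < w * K := by omega
  set acc : Finset (Lab l (w * K) p) := univ.filter (fun D => TFrugal B r (2 ^ l) D) with hacc
  set hv : Finset (Lab l (w * K) p) := univ.filter (fun D => THeavy B r (2 ^ l) (2 * t * K + R) D) with hhv
  set lt : Finset (Lab l (w * K) p) := acc \ hv with hlt
  have hheavy : 2 ^ t * hv.card ≤ Fintype.card (Lab l (w * K) p) :=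
    theavy_small ht hl hK0 hK hW hp hr B hS hB hv (fun D hD => (mem_filter.1 hD).2)
  -- light labelings: the zeroed inputs are accepted
  have hlight : ∀ D ∈ lt, (univ.filter (fun v : Fin (w * K) => ∀ T, ¬ AccTree B (bad D v) T)).card ≤
      2 * (t * K + R) := by
    intro D hD
    obtain ⟨hD1, hD2⟩ := mem_sdiff.1 hD
    obtain ⟨T, hT, hlen, hTr⟩ := (mem_filter.1 hD1).2
    have h1 : (treadAt D T).card < 2 * t * K + R := by
      by_contra hcon
      exact hD2 (mem_filter.2 ⟨mem_univ _, T, hT, hTr, hlen, not_lt.1 hcon⟩)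
    refine le_trans (card_le_card ?_) (show (treadAt D T).card ≤ 2 * (t * K + R) by omega)
    intro v hvv
    by_contra hvn
    exact (mem_filter.1 hvv).2 T (tacc_bad B D T hT v hvn)
  constructor
  · -- count
    have hset : {ω : Lab l (w * K) p × Fin (w * K) × Bool |
        RightTree B r (2 ^ l) (if ω.2.2 then inp ω.1 else bad ω.1 ω.2.1)} =
        ↑(univ.filter (fun ω : Lab l (w * K) p × Fin (w * K) × Bool =>
          RightTree B r (2 ^ l) (if ω.2.2 then inp ω.1 else bad ω.1 ω.2.1))) := by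
      ext ω; simp
    rw [hset, Set.ncard_coe_finset]
    set R1 : Finset (Lab l (w * K) p × Fin (w * K) × Bool) := (acc ×ˢ (univ : Finset (Fin (w * K)))).image
      (fun q => (q.1, q.2, true)) with hR1
    set R2 : Finset (Lab l (w * K) p × Fin (w * K) × Bool) := (ltᶜ ×ˢ (univ : Finset (Fin (w * K)))).image
      (fun q => (q.1, q.2, false)) with hR2
    set R3 : Finset (Lab l (w * K) p × Fin (w * K) × Bool) := (lt.sigma
      (fun D => univ.filter (fun v : Fin (w * K) => ∀ T, ¬ AccTree B (bad D v) T))).image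
      (fun q => (q.1, q.2, false)) with hR3
    have hsub : (univ.filter (fun ω : Lab l (w * K) p × Fin (w * K) × Bool =>
          RightTree B r (2 ^ l) (if ω.2.2 then inp ω.1 else bad ω.1 ω.2.1))) ⊆ R1 ∪ R2 ∪ R3 := by
      rintro ⟨D, v, b⟩ hω
      have hR := (mem_filter.1 hω).2
      cases b with
      | true =>
        simp only [if_true] at hR
        refine mem_union_left _ (mem_union_left _ (mem_image.2 ⟨(D, v),
          mem_product.2 ⟨?_, mem_univ _⟩, rfl⟩))
        rcases hR with ⟨_, h⟩ | ⟨h, _⟩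
        · exact mem_filter.2 ⟨mem_univ _, h⟩
        · exact absurd (yes_inp hw D) h
      | false =>
        simp only [Bool.false_eq_true, if_false] at hR
        have hR' : ∀ T, ¬ AccTree B (bad D v) T := by
          rcases hR with ⟨h, _⟩ | ⟨_, h⟩
          · exact absurd h (not_yes_bad (by omega) D v)
          · exact h
        by_cases hDl : D ∈ lt
        · exact mem_union_right _ (mem_image.2 ⟨⟨D, v⟩,
            mem_sigma.2 ⟨hDl, mem_filter.2 ⟨mem_univ _, hR'⟩⟩, rfl⟩)
        · exact mem_union_left _ (mem_union_right _ (mem_image.2 ⟨(D, v),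
            mem_product.2 ⟨mem_compl.2 hDl, mem_univ _⟩, rfl⟩))
    have hc := card_le_card hsub
    have hc1 : R1.card ≤ acc.card * (w * K) := by
      refine card_image_le.trans ?_
      rw [card_product, card_univ, Fintype.card_fin]
    have hc2 : R2.card ≤ (Fintype.card (Lab l (w * K) p) - lt.card) * (w * K) := by
      refine card_image_le.trans ?_
      rw [card_product, card_univ, Fintype.card_fin, card_compl]
    have hc3 : R3.card ≤ lt.card * (2 * (t * K + R)) := by
      refine card_image_le.trans ?_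
      rw [card_sigma]
      exact (sum_le_card_nsmul _ _ _ hlight)
    have hc4 := (card_union_le (R1 ∪ R2) R3).trans (Nat.add_le_add_right (card_union_le R1 R2) _)
    have hacc2 : acc.card ≤ hv.card + lt.card := by
      have h1 : acc ⊆ hv ∪ lt := by
        intro D hD
        by_cases h : D ∈ hv
        · exact mem_union_left _ h
        · exact mem_union_right _ (mem_sdiff.2 ⟨hD, h⟩)
      exact (card_le_card h1).trans (card_union_le _ _)
    have hltle : lt.card ≤ Fintype.card (Lab l (w * K) p) := card_le_univ lt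
    have htot : Nat.card (Lab l (w * K) p × Fin (w * K) × Bool) =
        Fintype.card (Lab l (w * K) p) * (w * K * 2) := by
      rw [Nat.card_eq_fintype_card, Fintype.card_prod, Fintype.card_prod, Fintype.card_fin,
        Fintype.card_bool]
    rw [htot]
    exact tmain_num (hc.trans hc4) hc1 hc2 hc3 hacc2 hltle hheavy hW
  · intro hsound
    have hset : {D : Lab l (w * K) p | ∃ T, AccTree B (inp D) T ∧ tsize T < 2 ^ l ∧
        (treads T \ relevant (inp D)).encard ≤ r} ⊆ ↑hv := by
      rintro D ⟨T, hT, hlen, hTr⟩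
      refine mem_coe.2 (mem_filter.2 ⟨mem_univ _, T, hT, hTr, hlen, ?_⟩)
      have : treadAt D T = univ := by
        rw [eq_univ_iff_forall]
        intro v
        by_contra hvn
        exact hsound _ (not_yes_bad (by omega) D v) T (tacc_bad B D T hT v hvn)
      rw [this, card_univ, Fintype.card_fin]
      omega
    have h1 : ({D : Lab l (w * K) p | ∃ T, AccTree B (inp D) T ∧ tsize T < 2 ^ l ∧
        (treads T \ relevant (inp D)).encard ≤ r}.ncard : ℕ) ≤ hv.card := by
      have := Set.ncard_le_ncard hset (Set.toFinite _)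
      rwa [Set.ncard_coe_finset] at this
    have hhr : (2 : ℝ) ^ t * hv.card ≤ Fintype.card (Lab l (w * K) p) := by exact_mod_cast hheavy
    have h2t : (0 : ℝ) < 2 ^ t := by positivity
    rw [Nat.card_eq_fintype_card, one_div, inv_mul_eq_div, le_div_iff₀ h2t]
    have h1r : (({D : Lab l (w * K) p | ∃ T, AccTree B (inp D) T ∧ tsize T < 2 ^ l ∧
        (treads T \ relevant (inp D)).encard ≤ r}.ncard : ℕ) : ℝ) ≤ hv.card := by
      exact_mod_cast h1
    nlinarith

end Pool.Agent.UY
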