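import Pool.Agent.UX.Defs

/-!
Layered networks of tables with two arguments, `K` cells for each node. Generic notions (programs,
trees) are in `UW`; `M`, `lin`, `lin2` are in `UX`.
-/

set_option autoImplicit false

namespace Pool.Agent.UY

open Pool.Agent.UW

/-- Cell `k` of node `v`. -/
def cel {w K : ℕ} (v : Fin w) (k : Fin K) : Fin (w * K) := finProdFinEquiv (v, k)

/-- The node of a cell. -/
def grp {w K : ℕ} (u : Fin (w * K)) : Fin w := (finProdFinEquiv.symm u).1

/-- The number of a cell in its node. -/
def sub {w K : ℕ} (u : Fin (w * K)) : Fin K := (finProdFinEquiv.symm u).2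

/-- The value of a node: the product of its cells. -/
def gval {w K p : ℕ} (f : Fin (w * K) → ZMod p) (v : Fin w) : ZMod p := ∏ k : Fin K, f (cel v k)

/-- An entry: level (`0` at the bottom), cell of the level, two arguments. -/
abbrev Entry (l w K p : ℕ) : Type := Fin (l + 2) × Fin (w * K) × (ZMod p × ZMod p)

/-- The values of the cells for the tables `x`: level `0` takes the entry with arguments `0, 0`, level
`i + 1` the entry whose arguments are the two sums of the values of the nodes of level `i`. -/
def out {l w K p : ℕ} (x : Entry l w K p → ZMod p) (i : Fin (l + 2)) : Fin (w * K) → ZMod p :=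
  Fin.induction (motive := fun _ => Fin (w * K) → ZMod p) (fun u => x (0, u, (0, 0)))
    (fun i prev u => x (i.succ, u, UX.lin2 w p (grp u) (gval prev))) i

/-- The arguments of a cell. -/
def arg {l w K p : ℕ} (x : Entry l w K p → ZMod p) (i : Fin (l + 2)) :
    Fin (w * K) → ZMod p × ZMod p :=
  Fin.cases (fun _ => (0, 0)) (fun i u => UX.lin2 w p (grp u) (gval (out x i.castSucc))) i

/-- The relevant entries: the entries of the cells of the levels `0, .., l` and of the root (cell
`0` of the last level `l + 1`) at their arguments. -/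
def relevant {l w K p : ℕ} (x : Entry l w K p → ZMod p) : Set (Entry l w K p) :=
  {e | e.2.2 = arg x e.1 e.2.1 ∧ (e.1 = Fin.last (l + 1) → (e.2.1 : ℕ) = 0)}

/-- The value of the root is not `0`. -/
def Yes {l w K p : ℕ} (x : Entry l w K p → ZMod p) : Prop :=
  ∃ u : Fin (w * K), (u : ℕ) = 0 ∧ out x (Fin.last (l + 1)) u ≠ 0

/-- Arguments of a node for a labeling (of the cells). -/
def argG {l w K p : ℕ} (D : Lab l (w * K) p) (i : Fin (l + 2)) : Fin w → ZMod p × ZMod p :=
  Fin.cases (fun _ => (0, 0))
    (fun i v => UX.lin2 w p v (gval fun u => (D i.castSucc u : ZMod p))) i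

/-- Arguments of a cell for a labeling. -/
def argD {l w K p : ℕ} (D : Lab l (w * K) p) (i : Fin (l + 2)) (u : Fin (w * K)) :
    ZMod p × ZMod p := argG D i (grp u)

/-- The input of a labeling: the entry of every cell at its arguments is its label, all other
entries are `0`. -/
def inp {l w K p : ℕ} (D : Lab l (w * K) p) : Entry l w K p → ZMod p :=
  fun e => if e.2.2 = argD D e.1 e.2.1 then (D e.1 e.2.1 : ZMod p) else 0

/-- The same input with the table of cell `u` of level `l` (below the root) replaced by `0`. -/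
def bad {l w K p : ℕ} (D : Lab l (w * K) p) (u : Fin (w * K)) : Entry l w K p → ZMod p :=
  fun e => if e.1 = (Fin.last l).castSucc ∧ e.2.1 = u then 0 else inp D e

variable {S : Type}

/-- On each input at most `A` accepting trees read more than `R` different irrelevant entries. -/
def FewWastefulTrees {l w K p : ℕ} (B : Prog (Entry l w K p) (ZMod p) S) (A R : ℕ) : Prop :=
  ∀ x : Entry l w K p → ZMod p,
    {T | AccTree B x T ∧ (R : ℕ∞) < (treads T \ relevant x).encard}.encard ≤ A

/-- `B` is right on `x`: if the value is not `0`, some accepting tree with less than `m` steps and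
forks reads at most `r` different irrelevant entries; if it is `0`, there is no accepting tree. -/
def RightTree {l w K p : ℕ} (B : Prog (Entry l w K p) (ZMod p) S) (r m : ℕ)
    (x : Entry l w K p → ZMod p) : Prop :=
  (Yes x ∧ ∃ T, AccTree B x T ∧ tsize T < m ∧ (treads T \ relevant x).encard ≤ r) ∨
  (¬ Yes x ∧ ∀ T, ¬ AccTree B x T)

@[simp] theorem grp_cel {w K : ℕ} (v : Fin w) (k : Fin K) : grp (cel v k) = v := by
  simp [grp, cel]

@[simp] theorem sub_cel {w K : ℕ} (v : Fin w) (k : Fin K) : sub (cel v k) = k := by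
  simp [sub, cel]

@[simp] theorem cel_grp_sub {w K : ℕ} (u : Fin (w * K)) : cel (grp u) (sub u) = u :=
  finProdFinEquiv.apply_symm_apply u

theorem cel_val {w K : ℕ} (v : Fin w) (k : Fin K) : ((cel v k : Fin (w * K)) : ℕ) = k + K * v := rfl

theorem cel_inj {w K : ℕ} {v v' : Fin w} {k k' : Fin K} (h : cel v k = cel v' k') :
    v = v' ∧ k = k' := by
  have h1 := finProdFinEquiv.injective h
  exact ⟨congrArg Prod.fst h1, congrArg Prod.snd h1⟩

theorem out_zero {l w K p : ℕ} (x : Entry l w K p → ZMod p) (u : Fin (w * K)) :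
    out x 0 u = x (0, u, (0, 0)) := rfl

theorem out_succ {l w K p : ℕ} (x : Entry l w K p → ZMod p) (i : Fin (l + 1)) (u : Fin (w * K)) :
    out x i.succ u = x (i.succ, u, UX.lin2 w p (grp u) (gval (out x i.castSucc))) := rfl

theorem arg_zero {l w K p : ℕ} (x : Entry l w K p → ZMod p) (u : Fin (w * K)) :
    arg x 0 u = (0, 0) := rfl

theorem arg_succ {l w K p : ℕ} (x : Entry l w K p → ZMod p) (i : Fin (l + 1)) (u : Fin (w * K)) :
    arg x i.succ u = UX.lin2 w p (grp u) (gval (out x i.castSucc)) := rfl

theorem argG_zero {l w K p : ℕ} (D : Lab l (w * K) p) (v : Fin w) : argG D 0 v = (0, 0) := rfl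

theorem argG_succ {l w K p : ℕ} (D : Lab l (w * K) p) (i : Fin (l + 1)) (v : Fin w) :
    argG D i.succ v = UX.lin2 w p v (gval fun u => (D i.castSucc u : ZMod p)) := rfl

theorem argD_zero {l w K p : ℕ} (D : Lab l (w * K) p) (u : Fin (w * K)) :
    argD D 0 u = (0, 0) := rfl

theorem argD_succ {l w K p : ℕ} (D : Lab l (w * K) p) (i : Fin (l + 1)) (u : Fin (w * K)) :
    argD D i.succ u = UX.lin2 w p (grp u) (gval fun u' => (D i.castSucc u' : ZMod p)) := rfl

theorem gval_ne {l w K p : ℕ} [Fact p.Prime] (D : Lab l (w * K) p) (i : Fin (l + 2)) (v : Fin w) :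
    gval (fun u => (D i u : ZMod p)) v ≠ 0 :=
  Finset.prod_ne_zero_iff.2 fun k _ => (D i (cel v k)).ne_zero

end Pool.Agent.UY
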