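import Pool.Agent.UW.GDefs
import Pool.Agent.UY.Defs

/-!
The embedding of the networks of tables with two arguments and `K` cells for each node into GEN.
-/

set_option autoImplicit false

namespace Pool.Agent.UY

open Pool.Agent.UW

/-- Elements: base, numbers of nodes, numbers of cells, `cl i v k z` = cell `k` of node `(i, v)` has
value `z`, `acc i v k z` = the product of the cells `0, .., k` of node `(i, v)` is `z`,
`par c i v j s` = the sum `c` over the nodes `≤ j` for node `(i + 1, v)` is `s`, `fin i v s k` = the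
first argument of cell `k` of node `(i + 1, v)` is `s`, target. -/
inductive Elem (l w K p : ℕ) : Type
  | b : Elem l w K p
  | c (v : Fin w) : Elem l w K p
  | kk (k : Fin K) : Elem l w K p
  | cl (i : Fin (l + 2)) (v : Fin w) (k : Fin K) (z : ZMod p) : Elem l w K p
  | acc (i : Fin (l + 2)) (v : Fin w) (k : Fin K) (z : ZMod p) : Elem l w K p
  | par (c : Bool) (i : Fin (l + 1)) (v : Fin w) (j : Fin w) (s : ZMod p) : Elem l w K p
  | fin (i : Fin (l + 1)) (v : Fin w) (s : ZMod p) (k : Fin K) : Elem l w K p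
  | top : Elem l w K p
  deriving DecidableEq

open Classical in
/-- The operation of the tables `x`. -/
noncomputable def gop {l w K p : ℕ} (x : Entry l w K p → ZMod p) :
    Elem l w K p × Elem l w K p → Elem l w K p
  | (.b, .b) => if h : 0 < w then .c ⟨0, h⟩ else .b
  | (.b, .c v) => if h : (v : ℕ) + 1 < w then .c ⟨v + 1, h⟩ else .b
  | (.c _, .b) => if h : 0 < K then .kk ⟨0, h⟩ else .b
  | (.b, .kk k) => if h : (k : ℕ) + 1 < K then .kk ⟨k + 1, h⟩ else .b
  | (.c v, .kk k) => .cl 0 v k (x (0, cel v k, (0, 0)))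
  | (.cl i v k z, .b) =>
      if i = Fin.last (l + 1) then (if (v : ℕ) = 0 ∧ (k : ℕ) = 0 ∧ z ≠ 0 then .top else .b)
      else (if (k : ℕ) = 0 then .acc i v k z else .b)
  | (.acc i v k z, .cl i' v' k' z') =>
      if i = i' ∧ v = v' ∧ (k' : ℕ) = k + 1 then .acc i v k' (z * z') else .b
  | (.acc i u k z, .c v) =>
      if h : (u : ℕ) = 0 ∧ (k : ℕ) + 1 = K ∧ (i : ℕ) < l + 1 ∧ ((i : ℕ) = l → (v : ℕ) = 0) then
        .par false ⟨i, h.2.2.1⟩ v u (UX.M w p false v u * z) else .b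
  | (.c v, .acc i u k z) =>
      if h : (u : ℕ) = 0 ∧ (k : ℕ) + 1 = K ∧ (i : ℕ) < l + 1 ∧ ((i : ℕ) = l → (v : ℕ) = 0) then
        .par true ⟨i, h.2.2.1⟩ v u (UX.M w p true v u * z) else .b
  | (.par c i v j s, .acc i' u k z) =>
      if (i : ℕ) = (i' : ℕ) ∧ (u : ℕ) = j + 1 ∧ (k : ℕ) + 1 = K then
        .par c i v u (s + UX.M w p c v u * z) else .b
  | (.par c i v j s, .b) =>
      if h : c = false ∧ (j : ℕ) + 1 = w ∧ 0 < K then .fin i v s ⟨0, h.2.2⟩ else .b
  | (.fin i v s k, .b) =>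
      if h : (i : ℕ) ≠ l ∧ (k : ℕ) + 1 < K then .fin i v s ⟨k + 1, h.2⟩ else .b
  | (.fin i v s k, .par c' i' v' j' s') =>
      if c' = true ∧ i = i' ∧ v = v' ∧ (j' : ℕ) + 1 = w then
        .cl i.succ v k (x (i.succ, cel v k, (s, s'))) else .b
  | _ => .b

/-- The generated elements. -/
def Good {l w K p : ℕ} (x : Entry l w K p → ZMod p) : Elem l w K p → Prop
  | .b => True
  | .c _ => True
  | .kk _ => True
  | .cl i v k z => z = out x i (cel v k) ∧ (i = Fin.last (l + 1) → (v : ℕ) = 0 ∧ (k : ℕ) = 0)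
  | .acc i v k z => i ≠ Fin.last (l + 1) ∧
      z = ∏ k' ∈ Finset.univ.filter (fun k' : Fin K => (k' : ℕ) ≤ k), out x i (cel v k')
  | .par c i v j s => s = ∑ u ∈ Finset.univ.filter (fun u : Fin w => (u : ℕ) ≤ j),
      UX.M w p c v u * gval (out x i.castSucc) u ∧ ((i : ℕ) = l → (v : ℕ) = 0)
  | .fin i v s k => s = UX.lin w p false v (gval (out x i.castSucc)) ∧
      ((i : ℕ) = l → (v : ℕ) = 0 ∧ (k : ℕ) = 0)
  | .top => Yes x

end Pool.Agent.UY
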