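import Pool.Agent.UY.GDefs

/-!
Generated elements are good: they carry right values (`K` cells for each node).
-/

set_option autoImplicit false

namespace Pool.Agent.UY

open Pool.Agent.UW

private theorem filter_zero {w : ℕ} (u : Fin w) (h : (u : ℕ) = 0) :
    (Finset.univ.filter fun u' : Fin w => (u' : ℕ) ≤ u) = {u} := by
  ext u'
  simp only [Finset.mem_filter, Finset.mem_univ, true_and, Finset.mem_singleton]
  constructor
  · intro h7
    exact Fin.ext (by omega)
  · rintro rfl
    exact le_rfl

private theorem filter_all {w : ℕ} (j : Fin w) (h : (j : ℕ) + 1 = w) :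
    (Finset.univ.filter fun u' : Fin w => (u' : ℕ) ≤ j) = Finset.univ := by
  ext u'
  simp only [Finset.mem_filter, Finset.mem_univ, true_and, iff_true]
  have := u'.isLt
  omega

private theorem filter_succ {w : ℕ} (j u : Fin w) (h : (u : ℕ) = j + 1) :
    (Finset.univ.filter fun u' : Fin w => (u' : ℕ) ≤ u) =
      insert u (Finset.univ.filter fun u' : Fin w => (u' : ℕ) ≤ j) := by
  ext u'
  simp only [Finset.mem_filter, Finset.mem_univ, true_and, Finset.mem_insert]
  constructor
  · intro h7
    by_cases h8 : u' = u
    · exact Or.inl h8
    · refine Or.inr ?_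
      have : (u' : ℕ) ≠ u := fun h9 => h8 (Fin.ext h9)
      omega
  · rintro (rfl | h7)
    · exact le_rfl
    · omega

private theorem not_mem_filter {w : ℕ} (j u : Fin w) (h : (u : ℕ) = j + 1) :
    u ∉ Finset.univ.filter fun u' : Fin w => (u' : ℕ) ≤ j := by
  simp only [Finset.mem_filter, Finset.mem_univ, true_and]
  omega

/-- The accumulated product of all cells is the value of the node. -/
private theorem acc_all {l w K p : ℕ} (x : Entry l w K p → ZMod p) (i : Fin (l + 2))
    (u : Fin w) (k : Fin K) (z : ZMod p) (hz : Good x (.acc i u k z)) (hk : (k : ℕ) + 1 = K) :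
    z = gval (out x i) u := by
  obtain ⟨-, h⟩ := hz
  rw [filter_all k hk] at h
  exact h

private theorem good_first {l w K p : ℕ} (x : Entry l w K p → ZMod p) (cc : Bool)
    (i : Fin (l + 2)) (u v : Fin w) (k : Fin K) (z : ZMod p) (hy : Good x (.acc i u k z))
    (h : (u : ℕ) = 0 ∧ (k : ℕ) + 1 = K ∧ (i : ℕ) < l + 1 ∧ ((i : ℕ) = l → (v : ℕ) = 0)) :
    Good x (.par cc ⟨i, h.2.2.1⟩ v u (UX.M w p cc v u * z)) := by
  have h4 := acc_all x i u k z hy h.2.1
  refine ⟨?_, h.2.2.2⟩
  have h5 : (⟨(i : ℕ), h.2.2.1⟩ : Fin (l + 1)).castSucc = i := Fin.ext rfl
  rw [filter_zero u h.1, Finset.sum_singleton, h5, h4]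

private theorem good_step {l w K p : ℕ} (x : Entry l w K p → ZMod p) (y z : Elem l w K p)
    (hy : Good x y) (hz : Good x z) : Good x (gop x (y, z)) := by
  cases y with
  | b =>
    cases z with
    | b => dsimp only [gop]; split_ifs <;> trivial
    | c v => dsimp only [gop]; split_ifs <;> trivial
    | kk k => dsimp only [gop]; split_ifs <;> trivial
    | cl i v k z => trivial
    | acc i v k z => trivial
    | par c i v j s => trivial
    | fin i v s k => trivial
    | top => trivial
  | c v =>
    cases z with
    | b => dsimp only [gop]; split_ifs <;> trivial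
    | c v' => trivial
    | kk k =>
      refine ⟨rfl, fun h => ?_⟩
      exact absurd (congrArg Fin.val h) (by simp)
    | cl i u k a => trivial
    | acc i u k a =>
      dsimp only [gop]
      split_ifs with h
      · exact good_first x true i u v k a hz h
      · trivial
    | par c i v j s => trivial
    | fin i v s k => trivial
    | top => trivial
  | kk k => cases z <;> trivial
  | cl i v k a =>
    cases z with
    | b =>
      obtain ⟨h4, -⟩ := hy
      dsimp only [gop]
      split_ifs with h1 h2 h3
      · obtain ⟨h5, h6, h7⟩ := h2
        subst h1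
        refine ⟨cel v k, ?_, fun h8 => h7 (h4.trans h8)⟩
        rw [cel_val, h5, h6, mul_zero, add_zero]
      · trivial
      · refine ⟨h1, ?_⟩
        rw [filter_zero k h3, Finset.prod_singleton]
        exact h4
      · trivial
    | c v => trivial
    | kk k => trivial
    | cl i v k z => trivial
    | acc i v k z => trivial
    | par c i v j s => trivial
    | fin i v s k => trivial
    | top => trivial
  | acc i u k a =>
    cases z with
    | b => trivial
    | c v =>
      dsimp only [gop]
      split_ifs with h
      · exact good_first x false i u v k a hy h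
      · trivial
    | kk k => trivial
    | cl i' v' k' a' =>
      dsimp only [gop]
      split_ifs with h
      · obtain ⟨h1, h2, h3⟩ := h
        obtain ⟨h4, h5⟩ := hy
        obtain ⟨h6, -⟩ := hz
        subst h1 h2
        refine ⟨h4, ?_⟩
        rw [filter_succ k k' h3, Finset.prod_insert (not_mem_filter k k' h3), h5, h6, mul_comm]
      · trivial
    | acc i v k z => trivial
    | par c i v j s => trivial
    | fin i v s k => trivial
    | top => trivial
  | par c i v j s =>
    cases z with
    | b =>
      dsimp only [gop]
      split_ifs with h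
      · obtain ⟨h1, h2, h3⟩ := h
        obtain ⟨h4, h5⟩ := hy
        subst h1
        rw [filter_all j h2] at h4
        exact ⟨h4, fun h6 => ⟨h5 h6, rfl⟩⟩
      · trivial
    | c v => trivial
    | kk k => trivial
    | cl i v k z => trivial
    | acc i' u k a =>
      dsimp only [gop]
      split_ifs with h
      · obtain ⟨h1, h2, h3⟩ := h
        have h4 := acc_all x i' u k a hz h3
        obtain ⟨h5, h6⟩ := hy
        have h7 : i.castSucc = i' := Fin.ext h1
        subst h7
        refine ⟨?_, h6⟩
        rw [filter_succ j u h2, Finset.sum_insert (not_mem_filter j u h2), h5, h4, add_comm]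
      · trivial
    | par c i v j s => trivial
    | fin i v s k => trivial
    | top => trivial
  | fin i v s k =>
    cases z with
    | b =>
      dsimp only [gop]
      split_ifs with h
      · exact ⟨hy.1, fun h6 => absurd h6 h.1⟩
      · trivial
    | c v => trivial
    | kk k => trivial
    | cl i v k z => trivial
    | acc i v k z => trivial
    | par c' i' v' j' s' =>
      dsimp only [gop]
      split_ifs with h
      · obtain ⟨h1, h2, h3, h4⟩ := h
        obtain ⟨h5, h6⟩ := hy
        obtain ⟨h7, -⟩ := hz
        subst h1 h2 h3
        rw [filter_all j' h4] at h7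
        refine ⟨?_, fun h9 => h6 ?_⟩
        · rw [out_succ, grp_cel, h5, h7]
          rfl
        · have := congrArg Fin.val h9
          simp at this
          exact this
      · trivial
    | fin i v s k => trivial
    | top => trivial
  | top =>
    cases z <;> trivial

/-- G2: every generated element is good. -/
theorem good_of_gen {l w K p : ℕ} (x : Entry l w K p → ZMod p) (y : Elem l w K p)
    (h : Gen (gop x) .b y) : Good x y := by
  induction h with
  | base => trivial
  | op y z _ _ hy hz => exact good_step x y z hy hz

end Pool.Agent.UY
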