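import Pool.Agent.UY.GDefs

/-!
If the root has a value different from `0`, the base generates the target.
-/

set_option autoImplicit false

namespace Pool.Agent.UY

open Pool.Agent.UW

private theorem gen_c {l w K p : ℕ} (x : Entry l w K p → ZMod p) (n : ℕ) :
    ∀ h : n < w, Gen (gop x) .b (.c ⟨n, h⟩) := by
  induction n with
  | zero =>
    intro h
    have h1 : gop x (.b, .b) = .c ⟨0, h⟩ := by
      dsimp only [gop]
      rw [dif_pos h]
    rw [← h1]
    exact Gen.op _ _ Gen.base Gen.base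
  | succ n ih =>
    intro h
    have h0 : n < w := by omega
    have h1 : gop x (.b, .c ⟨n, h0⟩) = .c ⟨n + 1, h⟩ := by
      dsimp only [gop]
      rw [dif_pos h]
    rw [← h1]
    exact Gen.op _ _ Gen.base (ih h0)

private theorem gen_kk {l w K p : ℕ} (x : Entry l w K p → ZMod p) (v : Fin w) (n : ℕ) :
    ∀ h : n < K, Gen (gop x) .b (.kk ⟨n, h⟩) := by
  induction n with
  | zero =>
    intro h
    have h1 : gop x (.c v, .b) = .kk ⟨0, h⟩ := by
      dsimp only [gop]
      rw [dif_pos h]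
    rw [← h1]
    exact Gen.op _ _ (gen_c x v v.isLt) Gen.base
  | succ n ih =>
    intro h
    have h0 : n < K := by omega
    have h1 : gop x (.b, .kk ⟨n, h0⟩) = .kk ⟨n + 1, h⟩ := by
      dsimp only [gop]
      rw [dif_pos h]
    rw [← h1]
    exact Gen.op _ _ Gen.base (ih h0)

private theorem gen_acc {l w K p : ℕ} (x : Entry l w K p → ZMod p) (i : Fin (l + 2))
    (hi : i ≠ Fin.last (l + 1)) (v : Fin w)
    (hcl : ∀ k : Fin K, Gen (gop x) .b (.cl i v k (out x i (cel v k)))) (n : ℕ) :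
    ∀ h : n < K, Gen (gop x) .b (.acc i v ⟨n, h⟩
      (∏ k' ∈ Finset.univ.filter (fun k' : Fin K => (k' : ℕ) ≤ n), out x i (cel v k'))) := by
  induction n with
  | zero =>
    intro h
    have h6 : (Finset.univ.filter fun k' : Fin K => (k' : ℕ) ≤ 0) = {⟨0, h⟩} := by
      ext k'
      simp only [Finset.mem_filter, Finset.mem_univ, true_and, Finset.mem_singleton]
      constructor
      · intro h7
        exact Fin.ext (by simpa using h7)
      · rintro rfl
        exact le_rfl
    rw [h6, Finset.prod_singleton]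
    have h2 : ((⟨0, h⟩ : Fin K) : ℕ) = 0 := rfl
    have h1 : gop x (.cl i v ⟨0, h⟩ (out x i (cel v ⟨0, h⟩)), .b) =
        .acc i v ⟨0, h⟩ (out x i (cel v ⟨0, h⟩)) := by
      dsimp only [gop]
      rw [if_neg hi, if_pos h2]
    rw [← h1]
    exact Gen.op _ _ (hcl _) Gen.base
  | succ n ih =>
    intro h
    have h0 : n < K := by omega
    have h7 : (Finset.univ.filter fun k' : Fin K => (k' : ℕ) ≤ n + 1) =
        insert (⟨n + 1, h⟩ : Fin K) (Finset.univ.filter fun k' : Fin K => (k' : ℕ) ≤ n) := by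
      ext k'
      simp only [Finset.mem_filter, Finset.mem_univ, true_and, Finset.mem_insert]
      constructor
      · intro h7
        by_cases h8 : k' = ⟨n + 1, h⟩
        · exact Or.inl h8
        · refine Or.inr ?_
          have : (k' : ℕ) ≠ n + 1 := fun h9 => h8 (Fin.ext h9)
          omega
      · rintro (rfl | h7)
        · exact le_rfl
        · omega
    have h8 : (⟨n + 1, h⟩ : Fin K) ∉ Finset.univ.filter fun k' : Fin K => (k' : ℕ) ≤ n := by
      simp only [Finset.mem_filter, Finset.mem_univ, true_and]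
      omega
    rw [h7, Finset.prod_insert h8, mul_comm (out x i (cel v ⟨n + 1, h⟩))]
    have h2 : i = i ∧ v = v ∧ ((⟨n + 1, h⟩ : Fin K) : ℕ) = ((⟨n, h0⟩ : Fin K) : ℕ) + 1 :=
      ⟨rfl, rfl, rfl⟩
    have h1 : gop x (.acc i v ⟨n, h0⟩
        (∏ k' ∈ Finset.univ.filter (fun k' : Fin K => (k' : ℕ) ≤ n), out x i (cel v k')),
        .cl i v ⟨n + 1, h⟩ (out x i (cel v ⟨n + 1, h⟩))) =
        .acc i v ⟨n + 1, h⟩ ((∏ k' ∈ Finset.univ.filter (fun k' : Fin K => (k' : ℕ) ≤ n),
          out x i (cel v k')) * out x i (cel v ⟨n + 1, h⟩)) := by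
      dsimp only [gop]
      rw [if_pos h2]
    rw [← h1]
    exact Gen.op _ _ (ih h0) (hcl _)

private theorem gen_par {l w K p : ℕ} (x : Entry l w K p → ZMod p) (c : Bool) (i : Fin (l + 1))
    (v : Fin w) (hv : (i : ℕ) = l → (v : ℕ) = 0) (k : Fin K) (hk : (k : ℕ) + 1 = K)
    (hacc : ∀ u : Fin w, Gen (gop x) .b
      (.acc i.castSucc u k (gval (out x i.castSucc) u))) (n : ℕ) :
    ∀ h : n < w, Gen (gop x) .b (.par c i v ⟨n, h⟩
      (∑ u ∈ Finset.univ.filter (fun u : Fin w => (u : ℕ) ≤ n),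
        UX.M w p c v u * gval (out x i.castSucc) u)) := by
  induction n with
  | zero =>
    intro h
    have h6 : (Finset.univ.filter fun u' : Fin w => (u' : ℕ) ≤ 0) = {⟨0, h⟩} := by
      ext u'
      simp only [Finset.mem_filter, Finset.mem_univ, true_and, Finset.mem_singleton]
      constructor
      · intro h7
        exact Fin.ext (by simpa using h7)
      · rintro rfl
        exact le_rfl
    rw [h6, Finset.sum_singleton]
    have h2 : ((⟨0, h⟩ : Fin w) : ℕ) = 0 ∧ (k : ℕ) + 1 = K ∧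
        ((i.castSucc : Fin (l + 2)) : ℕ) < l + 1 ∧
        (((i.castSucc : Fin (l + 2)) : ℕ) = l → (v : ℕ) = 0) := ⟨rfl, hk, i.isLt, hv⟩
    cases c with
    | false =>
      have h1 : gop x (.acc i.castSucc ⟨0, h⟩ k (gval (out x i.castSucc) ⟨0, h⟩), .c v) =
          .par false i v ⟨0, h⟩ (UX.M w p false v ⟨0, h⟩ * gval (out x i.castSucc) ⟨0, h⟩) := by
        dsimp only [gop]
        rw [dif_pos h2]
        rfl
      rw [← h1]
      exact Gen.op _ _ (hacc _) (gen_c x v v.isLt)
    | true =>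
      have h1 : gop x (.c v, .acc i.castSucc ⟨0, h⟩ k (gval (out x i.castSucc) ⟨0, h⟩)) =
          .par true i v ⟨0, h⟩ (UX.M w p true v ⟨0, h⟩ * gval (out x i.castSucc) ⟨0, h⟩) := by
        dsimp only [gop]
        rw [dif_pos h2]
        rfl
      rw [← h1]
      exact Gen.op _ _ (gen_c x v v.isLt) (hacc _)
  | succ n ih =>
    intro h
    have h0 : n < w := by omega
    have h7 : (Finset.univ.filter fun u' : Fin w => (u' : ℕ) ≤ n + 1) =
        insert (⟨n + 1, h⟩ : Fin w) (Finset.univ.filter fun u' : Fin w => (u' : ℕ) ≤ n) := by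
      ext u'
      simp only [Finset.mem_filter, Finset.mem_univ, true_and, Finset.mem_insert]
      constructor
      · intro h7
        by_cases h8 : u' = ⟨n + 1, h⟩
        · exact Or.inl h8
        · refine Or.inr ?_
          have : (u' : ℕ) ≠ n + 1 := fun h9 => h8 (Fin.ext h9)
          omega
      · rintro (rfl | h7)
        · exact le_rfl
        · omega
    have h8 : (⟨n + 1, h⟩ : Fin w) ∉ Finset.univ.filter fun u' : Fin w => (u' : ℕ) ≤ n := by
      simp only [Finset.mem_filter, Finset.mem_univ, true_and]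
      omega
    rw [h7, Finset.sum_insert h8,
      add_comm (UX.M w p c v ⟨n + 1, h⟩ * gval (out x i.castSucc) ⟨n + 1, h⟩)]
    have h2 : (i : ℕ) = ((i.castSucc : Fin (l + 2)) : ℕ) ∧
        ((⟨n + 1, h⟩ : Fin w) : ℕ) = ((⟨n, h0⟩ : Fin w) : ℕ) + 1 ∧ (k : ℕ) + 1 = K :=
      ⟨rfl, rfl, hk⟩
    have h1 : gop x (.par c i v ⟨n, h0⟩ (∑ u ∈ Finset.univ.filter (fun u : Fin w => (u : ℕ) ≤ n),
        UX.M w p c v u * gval (out x i.castSucc) u),
          .acc i.castSucc ⟨n + 1, h⟩ k (gval (out x i.castSucc) ⟨n + 1, h⟩)) =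
        .par c i v ⟨n + 1, h⟩ (∑ u ∈ Finset.univ.filter (fun u : Fin w => (u : ℕ) ≤ n),
          UX.M w p c v u * gval (out x i.castSucc) u +
            UX.M w p c v ⟨n + 1, h⟩ * gval (out x i.castSucc) ⟨n + 1, h⟩) := by
      dsimp only [gop]
      rw [if_pos h2]
    rw [← h1]
    exact Gen.op _ _ (ih h0) (hacc _)

private theorem gen_fin {l w K p : ℕ} (x : Entry l w K p → ZMod p) (i : Fin (l + 1))
    (v j : Fin w) (hj : (j : ℕ) + 1 = w) (s : ZMod p)
    (hpar : Gen (gop x) .b (.par false i v j s)) (n : ℕ) :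
    ∀ h : n < K, ((i : ℕ) = l → n = 0) → Gen (gop x) .b (.fin i v s ⟨n, h⟩) := by
  induction n with
  | zero =>
    intro h _
    have h2 : (false : Bool) = false ∧ (j : ℕ) + 1 = w ∧ 0 < K := ⟨rfl, hj, h⟩
    have h1 : gop x (.par false i v j s, .b) = .fin i v s ⟨0, h⟩ := by
      dsimp only [gop]
      rw [dif_pos h2]
    rw [← h1]
    exact Gen.op _ _ hpar Gen.base
  | succ n ih =>
    intro h hn
    have h0 : n < K := by omega
    have hi : (i : ℕ) ≠ l := fun h' => by
      have := hn h'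
      omega
    have h2 : (i : ℕ) ≠ l ∧ ((⟨n, h0⟩ : Fin K) : ℕ) + 1 < K := ⟨hi, h⟩
    have h1 : gop x (.fin i v s ⟨n, h0⟩, .b) = .fin i v s ⟨n + 1, h⟩ := by
      dsimp only [gop]
      rw [dif_pos h2]
    rw [← h1]
    exact Gen.op _ _ (ih h0 fun h' => absurd h' hi) Gen.base

private theorem gen_cl {l w K p : ℕ} (x : Entry l w K p → ZMod p) (i : Fin (l + 2)) :
    ∀ (v : Fin w) (k : Fin K), (i = Fin.last (l + 1) → (v : ℕ) = 0 ∧ (k : ℕ) = 0) →
      Gen (gop x) .b (.cl i v k (out x i (cel v k))) := by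
  refine Fin.induction ?_ (fun i ih => ?_) i
  · intro v k _
    have h1 : gop x (.c v, .kk k) = .cl 0 v k (out x 0 (cel v k)) := rfl
    rw [← h1]
    exact Gen.op _ _ (gen_c x v v.isLt) (gen_kk x v k k.isLt)
  · intro v k hv
    have hw : 0 < w := lt_of_le_of_lt (Nat.zero_le _) v.isLt
    have hK : 0 < K := lt_of_le_of_lt (Nat.zero_le _) k.isLt
    have hn : w - 1 < w := by omega
    have hm : K - 1 < K := by omega
    have hlast : i.castSucc ≠ Fin.last (l + 1) := fun h => by
      have h1 := congrArg Fin.val h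
      simp only [Fin.val_castSucc, Fin.val_last] at h1
      have := i.isLt
      omega
    have hacc : ∀ u : Fin w, Gen (gop x) .b
        (.acc i.castSucc u ⟨K - 1, hm⟩ (gval (out x i.castSucc) u)) := by
      intro u
      have h3 := gen_acc x i.castSucc hlast u (fun k' => ih u k' fun h => absurd h hlast)
        (K - 1) hm
      have h8 : (Finset.univ.filter fun k' : Fin K => (k' : ℕ) ≤ K - 1) = Finset.univ := by
        ext k'
        simp only [Finset.mem_filter, Finset.mem_univ, true_and, iff_true]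
        have := k'.isLt
        omega
      rw [h8] at h3
      exact h3
    have hv' : (i : ℕ) = l → (v : ℕ) = 0 ∧ (k : ℕ) = 0 := fun h => hv (Fin.ext (by simp [h]))
    have hk1 : ((⟨K - 1, hm⟩ : Fin K) : ℕ) + 1 = K := by
      simp only
      omega
    have hw1 : ((⟨w - 1, hn⟩ : Fin w) : ℕ) + 1 = w := by
      simp only
      omega
    have h8 : (Finset.univ.filter fun u' : Fin w => (u' : ℕ) ≤ w - 1) = Finset.univ := by
      ext u'
      simp only [Finset.mem_filter, Finset.mem_univ, true_and, iff_true]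
      have := u'.isLt
      omega
    have h3 : ∀ c : Bool, Gen (gop x) .b
        (.par c i v ⟨w - 1, hn⟩ (UX.lin w p c v (gval (out x i.castSucc)))) := by
      intro c
      have h3' := gen_par x c i v (fun h => (hv' h).1) ⟨K - 1, hm⟩ hk1 hacc (w - 1) hn
      rw [h8] at h3'
      exact h3'
    have h5 := gen_fin x i v ⟨w - 1, hn⟩ hw1 _ (h3 false) k k.isLt fun h => (hv' h).2
    have h4 : (true : Bool) = true ∧ i = i ∧ v = v ∧ ((⟨w - 1, hn⟩ : Fin w) : ℕ) + 1 = w :=
      ⟨rfl, rfl, rfl, hw1⟩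
    have h1 : gop x (.fin i v (UX.lin w p false v (gval (out x i.castSucc))) k,
        .par true i v ⟨w - 1, hn⟩ (UX.lin w p true v (gval (out x i.castSucc)))) =
        .cl i.succ v k (out x i.succ (cel v k)) := by
      dsimp only [gop]
      rw [if_pos h4, out_succ, grp_cel]
      rfl
    rw [← h1]
    exact Gen.op _ _ h5 (h3 true)

/-- G3: if the value of the root is not `0`, the target is generated. -/
theorem gen_top {l w K p : ℕ} (x : Entry l w K p → ZMod p) (h : Yes x) :
    Gen (gop x) .b .top := by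
  obtain ⟨u, hu, h⟩ := h
  have hc : cel (grp u) (sub u) = u := cel_grp_sub u
  have h0 : ((sub u : Fin K) : ℕ) + K * ((grp u : Fin w) : ℕ) = 0 := by
    rw [← cel_val, hc]
    exact hu
  have hK : 0 < K := lt_of_le_of_lt (Nat.zero_le _) (sub u).isLt
  have hk : ((sub u : Fin K) : ℕ) = 0 := by omega
  have hv : ((grp u : Fin w) : ℕ) = 0 := by
    have h1 : K * ((grp u : Fin w) : ℕ) = 0 := by omega
    rcases Nat.mul_eq_zero.1 h1 with h2 | h2
    · omega
    · exact h2
  rw [← hc] at h
  have h2 : ((grp u : Fin w) : ℕ) = 0 ∧ ((sub u : Fin K) : ℕ) = 0 ∧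
      out x (Fin.last (l + 1)) (cel (grp u) (sub u)) ≠ 0 := ⟨hv, hk, h⟩
  have h1 : gop x (.cl (Fin.last (l + 1)) (grp u) (sub u)
      (out x (Fin.last (l + 1)) (cel (grp u) (sub u))), .b) = .top := by
    dsimp only [gop]
    rw [if_pos rfl, if_pos h2]
  rw [← h1]
  exact Gen.op _ _ (gen_cl x _ _ _ fun _ => ⟨hv, hk⟩) Gen.base

end Pool.Agent.UY
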