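import Pool.Agent.UY.GPull
import Pool.Agent.UW.GPush
import Pool.Agent.UY.GGood
import Pool.Agent.UY.GTop

/-!
The theorem for GEN.
-/

set_option autoImplicit false

namespace Pool.Agent.UY

open Pool.Agent.UW
open Finset

variable {l w K p n : ℕ} {S : Type}

/-- The instance of GEN of the tables `x`. -/
noncomputable def ginst (e : Elem l w K p → Fin (n + 2)) (x : Entry l w K p → ZMod p) :
    Fin (n + 2) × Fin (n + 2) → Fin (n + 2) := push e (gop x) 0

theorem inst_ginst (e : Elem l w K p → Fin (n + 2)) (he : Function.Injective e) :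
    Inst e (ginst e) where
  inj := he
  cell := by
    rintro x ε q ⟨⟨y1, y2⟩, hy, rfl⟩
    unfold ginst
    rw [push_apply e he, gop_cell x ε (y1, y2) hy]
  const := by
    intro x x' q h
    unfold ginst
    by_cases hq : ∃ ab : Elem l w K p × Elem l w K p, e ab.1 = q.1 ∧ e ab.2 = q.2
    · obtain ⟨⟨a, c⟩, h1, h2⟩ := hq
      have hq' : q = (e a, e c) := Prod.ext h1.symm h2.symm
      rw [hq', push_apply e he, push_apply e he]
      congr 1
      refine gop_const x x' a c (fun ε y hy heq => h ⟨ε, y, hy, ?_⟩)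
      rw [hq', ← heq]
    · rw [push_of_not e _ _ q hq, push_of_not e _ _ q hq]

theorem gen_ginst (e : Elem l w K p → Fin (n + 2)) (he : Function.Injective e) (h0 : e .b = 0)
    (x : Entry l w K p → ZMod p) (y : Fin (n + 2)) :
    Gen (ginst e x) 0 y ↔ ∃ a, e a = y ∧ Gen (gop x) .b a := by
  unfold ginst
  rw [← h0]
  exact gen_push e he (gop x) .b y

theorem gen_one (e : Elem l w K p → Fin (n + 2)) (he : Function.Injective e) (h0 : e .b = 0)
    (h1 : e .top = 1) (x : Entry l w K p → ZMod p) : Gen (ginst e x) 0 1 ↔ Yes x := by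
  rw [gen_ginst e he h0]
  constructor
  · rintro ⟨a, ha, hg⟩
    have : a = .top := he (ha.trans h1.symm)
    subst this
    exact good_of_gen x _ hg
  · intro h
    exact ⟨.top, h1, gen_top x h⟩

/-- A finished second sum. -/
theorem good_par (x : Entry l w K p → ZMod p) (c : Bool) (i : Fin (l + 1)) (v j : Fin w) (s : ZMod p)
    (hj : (j : ℕ) + 1 = w) (h : Good x (.par c i v j s)) :
    s = UX.lin w p c v (gval (out x i.castSucc)) := by
  obtain ⟨k1, _⟩ := h
  have hf : (univ.filter (fun u : Fin w => (u : ℕ) ≤ j)) = univ := by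
    ext u
    have := u.isLt
    simp
    omega
  rw [hf] at k1
  exact k1

/-- The pair of an irrelevant entry is not a pair of generated elements. -/
theorem useless_of_irr (e : Elem l w K p → Fin (n + 2)) (he : Function.Injective e) (h0 : e .b = 0)
    (x : Entry l w K p → ZMod p) (ε : Entry l w K p) (q : Fin (n + 2) × Fin (n + 2))
    (hq : IsPair e ε q) (hε : ε ∉ relevant x) : q ∈ useless (ginst e x) := by
  rintro ⟨hg, hg'⟩
  apply hε
  obtain ⟨⟨y1, y2⟩, hy, rfl⟩ := hq
  obtain ⟨a, ha, hga⟩ := (gen_ginst e he h0 x _).1 hg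
  have : a = y1 := he ha
  subst this
  obtain ⟨a', ha', hga'⟩ := (gen_ginst e he h0 x _).1 hg'
  have : a' = y2 := he ha'
  subst this
  have hgood := good_of_gen x a hga
  have hgood' := good_of_gen x a' hga'
  obtain ⟨e1, e2, e3, e4⟩ := ε
  rcases hy with ⟨g1, g2, g3⟩ | ⟨i, j, g1, g2, g3⟩
  · simp only at g1 g2
    subst g1
    refine ⟨?_, fun h => absurd h ?_⟩
    · show ((e3, e4) : ZMod p × ZMod p) = (0, 0)
      exact g2
    · intro h
      have := congrArg Fin.val h
      simp at this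
  · obtain ⟨g5, g6⟩ := Prod.mk.inj g3
    simp only at g1 g5 g6
    subst g1; subst g5; subst g6
    obtain ⟨k1, k2⟩ := hgood
    have k3 := good_par x true i (grp e2) j e4 g2 hgood'
    refine ⟨?_, ?_⟩
    · show ((e3, e4) : ZMod p × ZMod p) = UX.lin2 w p (grp e2) (gval (out x i.castSucc))
      rw [k1, k3]
      rfl
    · intro h
      have h1 : (i : ℕ) = l := by
        have := congrArg Fin.val h
        simpa using this
      obtain ⟨h2, h3⟩ := k2 h1
      show (e2 : ℕ) = 0
      have h4 := cel_val (grp e2) (sub e2)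
      rw [cel_grp_sub, h2, h3] at h4
      simpa using h4

theorem irr_le (e : Elem l w K p → Fin (n + 2)) (he : Function.Injective e) (h0 : e .b = 0)
    (x : Entry l w K p → ZMod p) (T : Tree (Fin (n + 2) × Fin (n + 2)) (Fin (n + 2)) S) :
    (treads (trT e T) \ relevant x).encard ≤ (treads T ∩ useless (ginst e x)).encard := by
  classical
  have key : ∀ ε ∈ treads (trT e T) \ relevant x,
      ∃ q ∈ treads T ∩ useless (ginst e x), IsPair e ε q := by
    rintro ε ⟨h1, h2⟩
    obtain ⟨q, hq, hq'⟩ := treads_trT e T ε h1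
    exact ⟨q, ⟨hq, useless_of_irr e he h0 x ε q hq' h2⟩, hq'⟩
  choose! f hf1 hf2 using key
  refine Set.encard_le_encard_of_injOn (f := f) (fun ε hε => hf1 ε hε) ?_
  intro ε hε ε' hε' heq
  obtain ⟨⟨y1, y2⟩, hy, hyq⟩ := hf2 ε hε
  obtain ⟨⟨z1, z2⟩, hy', hyq'⟩ := hf2 ε' hε'
  rw [heq, hyq'] at hyq
  obtain ⟨e1, e2⟩ := Prod.mk.inj hyq
  have h1 : z1 = y1 := he e1
  have h2 : z2 = y2 := he e2
  subst h1; subst h2
  exact isCell_inj ε ε' (z1, z2) hy hy'

theorem fewWasteful_pull (e : Elem l w K p → Fin (n + 2)) (he : Function.Injective e) (h0 : e .b = 0)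
    (B : Prog (Fin (n + 2) × Fin (n + 2)) (Fin (n + 2)) S) (A R : ℕ) (hB : FewUseless B A R) :
    FewWastefulTrees (pull e (ginst e) B) A R := by
  intro x
  refine le_trans ?_ (hB (ginst e x))
  refine le_trans (Set.encard_le_encard ?_) (Set.encard_image_le (trT e) _)
  rintro T' ⟨h1, h2⟩
  obtain ⟨T, hT, hT'⟩ := run_pull (inst_ginst e he) B x _ T' h1
  refine ⟨T, ⟨hT, ?_⟩, hT'⟩
  rw [← hT'] at h2
  exact lt_of_lt_of_le h2 (irr_le e he h0 x T)

theorem right_pull (e : Elem l w K p → Fin (n + 2)) (he : Function.Injective e) (h0 : e .b = 0)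
    (h1 : e .top = 1)
    (B : Prog (Fin (n + 2) × Fin (n + 2)) (Fin (n + 2)) S) (r m : ℕ) (x : Entry l w K p → ZMod p)
    (h : RightGen B r m (ginst e x)) : RightTree (pull e (ginst e) B) r m x := by
  rcases h with ⟨hg, T, hT, hm, hr⟩ | ⟨hg, hno⟩
  · left
    refine ⟨(gen_one e he h0 h1 x).1 hg, trT e T, run_trT (inst_ginst e he) B x _ T hT, ?_, ?_⟩
    · rw [tsize_trT]; exact hm
    · exact (irr_le e he h0 x T).trans hr
  · right
    refine ⟨fun hy => hg ((gen_one e he h0 h1 x).2 hy), fun T' hT' => ?_⟩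
    obtain ⟨T, hT, _⟩ := run_pull (inst_ginst e he) B x _ T' hT'
    exact hno T hT

end Pool.Agent.UY
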