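import Mathlib

/-!
The numbers of the embedding, `K` cells for each node.
-/

set_option autoImplicit false

namespace Pool.Agent.UY

theorem choose_params (l t R A r s n : ℕ) (hl : 0 < l) (ht : 0 < t) (hR : R < 2 ^ t)
    (hs : (A + 1) * (r + 1) ≤ s ^ 2)
    (hn : 2 ^ 29 * l * (t ^ 2 + R) * (t + s) ≤ n + 2) :
    ∃ w K p : ℕ, p.Prime ∧ 0 < K ∧ K ≤ 2 ^ t ∧ 128 * (t * K + R) ≤ w * K ∧ 3 * w ≤ p ∧
      288 * ((A + 1) * (2 * r + 1)) ≤ (p - 1) ^ 2 ∧
      2 + w + K + 2 * ((l + 2) * w * K * p) + 2 * ((l + 1) * w * w * p) + (l + 1) * w * K * p ≤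
        n + 2 := by
  obtain ⟨K, hK⟩ : ∃ K, K = (R - 1) / t + 1 := ⟨_, rfl⟩
  have hmod := Nat.div_add_mod (R - 1) t
  have hlt := Nat.mod_lt (R - 1) ht
  have hK1 : t * K = t * ((R - 1) / t) + t := by rw [hK]; ring
  have hKl : R ≤ t * K := by omega
  have hKu : t * K ≤ R + t := by omega
  have hK0 : 0 < K := by rw [hK]; exact Nat.succ_pos _
  have h2t : 1 ≤ 2 ^ t := Nat.one_le_two_pow
  have hK2 : K ≤ 2 ^ t := by
    have h1 : (R - 1) / t ≤ R - 1 := Nat.div_le_self _ _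
    omega
  obtain ⟨p, hp, hp1, hp2⟩ := Nat.exists_prime_lt_and_le_two_mul (768 * t + 24 * s) (by omega)
  refine ⟨256 * t, K, p, hp, hK0, hK2, ?_, by omega, ?_, ?_⟩
  · have h5 : 256 * t * K = 256 * (t * K) := by ring
    omega
  · have h1 : (A + 1) * (2 * r + 1) ≤ 2 * ((A + 1) * (r + 1)) := by
      calc (A + 1) * (2 * r + 1) ≤ (A + 1) * (2 * (r + 1)) := Nat.mul_le_mul_left _ (by omega)
        _ = 2 * ((A + 1) * (r + 1)) := by ring
    have h2 : 24 * s ≤ p - 1 := by omega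
    have h3 : (24 * s) ^ 2 ≤ (p - 1) ^ 2 := Nat.pow_le_pow_left h2 2
    have h4 : (24 * s) ^ 2 = 576 * s ^ 2 := by ring
    omega
  · obtain ⟨Q, hQ⟩ : ∃ Q, Q = t + s := ⟨_, rfl⟩
    obtain ⟨V, hV⟩ : ∃ V, V = t ^ 2 + R := ⟨_, rfl⟩
    rw [← hQ, ← hV] at hn
    have hp3 : p ≤ 1536 * Q := by omega
    have hQ1 : 1 ≤ Q := by omega
    have htt : t ≤ t ^ 2 := by nlinarith
    have hV1 : t ≤ V := by omega
    have hV2 : t ^ 2 ≤ V := by omega
    have hV3 : t * K ≤ V := by omega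
    have hV4 : K ≤ V := by
      calc K = 1 * K := by ring
        _ ≤ t * K := Nat.mul_le_mul_right _ ht
        _ ≤ V := hV3
    have e0 : 2 ^ 29 * l * V * Q = 536870912 * (l * V * Q) := by ring
    rw [e0] at hn
    have e1 : 2 * ((l + 1) * (256 * t) * (256 * t) * p) ≤ 402653184 * (l * V * Q) := by
      calc 2 * ((l + 1) * (256 * t) * (256 * t) * p)
          ≤ 2 * ((2 * l) * (256 * t) * (256 * t) * (1536 * Q)) := by gcongr; omega
        _ = 402653184 * (l * t ^ 2 * Q) := by ring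
        _ ≤ _ := by gcongr
    have e2 : 2 * ((l + 2) * (256 * t) * K * p) ≤ 2359296 * (l * V * Q) := by
      calc 2 * ((l + 2) * (256 * t) * K * p)
          ≤ 2 * ((3 * l) * (256 * t) * K * (1536 * Q)) := by gcongr; omega
        _ = 2359296 * (l * (t * K) * Q) := by ring
        _ ≤ _ := by gcongr
    have e3 : (l + 1) * (256 * t) * K * p ≤ 786432 * (l * V * Q) := by
      calc (l + 1) * (256 * t) * K * p
          ≤ (2 * l) * (256 * t) * K * (1536 * Q) := by gcongr; omega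
        _ = 786432 * (l * (t * K) * Q) := by ring
        _ ≤ _ := by gcongr
    have e4 : V ≤ l * V * Q := by
      calc V = 1 * V * 1 := by ring
        _ ≤ l * V * Q := by gcongr; omega
    omega

end Pool.Agent.UY
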