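import Pool.Agent.UY.GFinal
import Pool.Agent.UY.GEmbed
import Pool.Agent.UY.GNum
import Pool.Agent.UY.TFinal

/-!
The theorem for GEN from networks of tables with two arguments and several cells for each node.
-/

set_option autoImplicit false

namespace Pool.Agent.UY

open Pool.Agent.UW Finset

/-- The theorem for GEN: trees of size `< 2 ^ l`, `2 ^ t` states. -/
theorem gmain (l t R A r s n : ℕ) (ht : 0 < t) (hl : 0 < l) (hlt : l ≤ 2 ^ t)
    (hR : R < 2 ^ t) (hs : (A + 1) * (r + 1) ≤ s ^ 2)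
    (hn : 2 ^ 29 * l * (t ^ 2 + R) * (t + s) ≤ n + 2) :
    (∃ (Ω : Type) (_ : Fintype Ω) (_ : Nonempty Ω)
      (G : Ω → Fin (n + 2) × Fin (n + 2) → Fin (n + 2)),
      ∀ (S : Type) [Fintype S] (B : Prog (Fin (n + 2) × Fin (n + 2)) (Fin (n + 2)) S),
        Fintype.card S ≤ 2 ^ t → FewUseless B A R →
        (({ω | RightGen B r (2 ^ l) (G ω)}.ncard : ℕ) : ℝ) ≤
          (1 / 2 + 1 / 128 + 1 / 2 ^ (t + 1)) * Nat.card Ω) ∧
    (∃ (Ω : Type) (_ : Fintype Ω) (_ : Nonempty Ω)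
      (G : Ω → Fin (n + 2) × Fin (n + 2) → Fin (n + 2)), (∀ ω, Gen (G ω) 0 1) ∧
      ∀ (S : Type) [Fintype S] (B : Prog (Fin (n + 2) × Fin (n + 2)) (Fin (n + 2)) S),
        Fintype.card S ≤ 2 ^ t → FewUseless B A R →
        (∀ g, ¬ Gen g 0 1 → ∀ T, ¬ AccTree B g T) →
        (({ω | RightGen B r (2 ^ l) (G ω)}.ncard : ℕ) : ℝ) ≤ 1 / 2 ^ t * Nat.card Ω) := by
  classical
  obtain ⟨w, K, p, hp, hK0, hK, hw, hpw, hr, hcard⟩ := choose_params l t R A r s n hl ht hR hs hn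
  have hfact : Fact p.Prime := ⟨hp⟩
  have hp0 : NeZero p := ⟨hp.ne_zero⟩
  have hwK : 0 < w * K := by
    have h1 : 0 < t * K := Nat.mul_pos ht hK0
    omega
  obtain ⟨e, he, h0, h1⟩ := exists_embed l w K p n hcard
  refine ⟨⟨Lab l (w * K) p × Fin (w * K) × Bool, inferInstance, ⟨(fun _ _ => 1, ⟨0, hwK⟩, true)⟩,
    fun ω => ginst e (if ω.2.2 then inp ω.1 else bad ω.1 ω.2.1), ?_⟩,
    ⟨Lab l (w * K) p, inferInstance, ⟨fun _ _ => 1⟩, fun D => ginst e (inp D), ?_, ?_⟩⟩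
  · intro S _ B hS hB
    have hm := (tmain ht hlt hK hK0 hw hpw hr (pull e (ginst e) B) hS
      (fewWasteful_pull e he h0 B A R hB)).1
    refine le_trans ?_ hm
    have : {ω : Lab l (w * K) p × Fin (w * K) × Bool |
        RightGen B r (2 ^ l) (ginst e (if ω.2.2 then inp ω.1 else bad ω.1 ω.2.1))} ⊆
        {ω : Lab l (w * K) p × Fin (w * K) × Bool |
        RightTree (pull e (ginst e) B) r (2 ^ l) (if ω.2.2 then inp ω.1 else bad ω.1 ω.2.1)} :=
      fun ω hω => right_pull e he h0 h1 B r (2 ^ l) _ hω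
    exact_mod_cast Set.ncard_le_ncard this (Set.toFinite _)
  · intro D
    exact (gen_one e he h0 h1 _).2 (yes_inp hwK D)
  · intro S _ B hS hB hsound
    have hm := (tmain ht hlt hK hK0 hw hpw hr (pull e (ginst e) B) hS
      (fewWasteful_pull e he h0 B A R hB)).2 (by
        intro x hx T' hT'
        obtain ⟨T, hT, _⟩ := run_pull (inst_ginst e he) B x _ T' hT'
        exact hsound _ (fun hg => hx ((gen_one e he h0 h1 x).1 hg)) T hT)
    refine le_trans ?_ hm
    have : {D : Lab l (w * K) p | RightGen B r (2 ^ l) (ginst e (inp D))} ⊆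
        {D : Lab l (w * K) p | ∃ T, AccTree (pull e (ginst e) B) (inp D) T ∧ tsize T < 2 ^ l ∧
          (treads T \ relevant (inp D)).encard ≤ r} := by
      intro D hD
      rcases right_pull e he h0 h1 B r (2 ^ l) _ hD with ⟨_, h⟩ | ⟨h, _⟩
      · exact h
      · exact absurd (yes_inp hwK D) h
    exact_mod_cast Set.ncard_le_ncard this (Set.toFinite _)

end Pool.Agent.UY
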