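import Pool.Agent.UY.Defs
import Pool.Agent.UW.TWin

/-!
The colour of a label in the network of a labeling (`K` cells for each node).
-/

set_option autoImplicit false

namespace Pool.Agent.UY

open Pool.Agent.UW

variable {S : Type}

/-- The cell which a label reads, if the entry is the one of a cell at its arguments for the labeling
`D`. -/
def tcol {l w K p : ℕ} (D : Lab l (w * K) p) :
    Option (Entry l w K p × Set (ZMod p)) → Option (ℕ × Fin (w * K))
  | none => none
  | some (e, _) => if e.2.2 = argD D e.1 e.2.1 then some ((e.1 : ℕ), e.2.1) else none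

theorem tcol_eq {l w K p : ℕ} (D : Lab l (w * K) p) (j : Fin (l + 2)) (v : Fin (w * K))
    (m : Option (Entry l w K p × Set (ZMod p))) :
    tcol D m = some ((j : ℕ), v) ↔ ((j, v, argD D j v) : Entry l w K p) ∈ lread m := by
  cases m with
  | none => simp [tcol, lread]
  | some m =>
    obtain ⟨⟨j', v', a⟩, P⟩ := m
    unfold tcol lread
    by_cases h : a = argD D j' v'
    · simp only [h, if_true, Option.some.injEq, Prod.mk.injEq, Set.mem_singleton_iff]
      constructor
      · rintro ⟨h1, h2⟩
        have h3 : j' = j := Fin.ext h1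
        subst h3
        subst h2
        exact ⟨rfl, rfl, rfl⟩
      · rintro ⟨h1, h2, _⟩
        subst h1
        subst h2
        exact ⟨rfl, rfl⟩
    · simp only [h, if_false, Set.mem_singleton_iff, Prod.mk.injEq, false_iff, reduceCtorEq]
      rintro ⟨h1, h2, h3⟩
      subst h1
      subst h2
      exact h h3.symm

theorem mem_tseen_tcol {l w K p : ℕ} (D : Lab l (w * K) p) (j : Fin (l + 2)) (v : Fin (w * K))
    (T : Tree (Entry l w K p) (ZMod p) S) :
    v ∈ tseen (tcol D) (j : ℕ) T ↔ ((j, v, argD D j v) : Entry l w K p) ∈ treads T := by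
  induction T with
  | stop => simp [tseen, treads]
  | step m s T ih =>
    simp only [tseen, treads, Finset.mem_union, Set.mem_union, mem_one, ih, tcol_eq]
  | fork s s' T T' ih ih' =>
    simp only [tseen, treads, Finset.mem_union, Set.mem_union, ih, ih']

theorem mem_fseen_tcol {l w K p : ℕ} (D : Lab l (w * K) p) (j : Fin (l + 2)) (v : Fin (w * K))
    (f : Frame (Entry l w K p) (ZMod p) S) :
    v ∈ fseen (tcol D) (j : ℕ) f ↔ ((j, v, argD D j v) : Entry l w K p) ∈ fread f := by
  cases f with
  | step m s => simp only [fseen, fread, mem_one, tcol_eq]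
  | left s s' T => exact mem_tseen_tcol D j v T
  | right s s' T => exact mem_tseen_tcol D j v T

theorem mem_cseen_tcol {l w K p : ℕ} (D : Lab l (w * K) p) (j : Fin (l + 2)) (v : Fin (w * K))
    (d : List (Frame (Entry l w K p) (ZMod p) S)) :
    v ∈ cseen (tcol D) (j : ℕ) d ↔ ((j, v, argD D j v) : Entry l w K p) ∈ creads d := by
  induction d with
  | nil => simp [cseen]
  | cons f d ih =>
    rw [creads_cons]
    simp only [cseen, Finset.mem_union, Set.mem_union, mem_fseen_tcol, ih]

end Pool.Agent.UY
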