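import Pool.Agent.UY.TCount
import Pool.Agent.UY.TWin
import Pool.Agent.UY.Values
import Pool.Agent.UW.Count3
import Pool.Agent.UW.Final

/-!
Heavy labelings for programs with forks (tables with two arguments, several cells per node).
-/

set_option autoImplicit false

namespace Pool.Agent.UY

open Finset Pool.Agent.UW

/-- The nodes of level `l` (below the root) whose relevant entry is read by a tree. -/
noncomputable def treadAt {l w K p : ℕ} {S : Type} (D : Lab l (w * K) p)
    (T : Tree (Entry l w K p) (ZMod p) S) : Finset (Fin (w * K)) := by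
  classical
  exact univ.filter (fun v =>
    (((Fin.last l).castSucc, v, argD D (Fin.last l).castSucc v) : Entry l w K p) ∈ treads T)

/-- Accepted by a tree of size `< m` which reads `≤ r` irrelevant entries and `≥ t'` nodes of level
`l`. -/
def THeavy {l w K p : ℕ} {S : Type} (B : Prog (Entry l w K p) (ZMod p) S) (r m t' : ℕ)
    (D : Lab l (w * K) p) : Prop :=
  ∃ T, AccTree B (inp D) T ∧ (treads T \ relevant (inp D)).encard ≤ r ∧ tsize T < m ∧
    t' ≤ (treadAt D T).card

theorem exists_cell {w K : ℕ} (hK : 0 < K) (U0 : Finset (Fin (w * K)))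
    (h : w * K ≤ 2 * U0.card + 1) :
    ∃ k : Fin K, ∃ U : Finset (Fin w), w ≤ 2 * U.card + 1 ∧ ∀ v ∈ U, cel v k ∈ U0 := by
  classical
  by_contra hcon
  push Not at hcon
  have h1 : ∀ k : Fin K, 2 * (univ.filter fun v : Fin w => cel v k ∈ U0).card + 2 ≤ w := by
    intro k
    by_contra hk
    obtain ⟨v, hv, hv'⟩ := hcon k (univ.filter fun v : Fin w => cel v k ∈ U0) (by omega)
    exact hv' (mem_filter.1 hv).2
  have h2 : U0.card ≤ ∑ k : Fin K, (univ.filter fun v : Fin w => cel v k ∈ U0).card := by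
    rw [card_eq_sum_card_fiberwise (f := fun u => sub u) (t := univ) (fun _ _ => mem_univ _)]
    refine sum_le_sum fun k _ => ?_
    refine card_le_card_of_injOn (fun u => grp u) ?_ ?_
    · intro u hu
      obtain ⟨hu1, hu2⟩ := mem_filter.1 (mem_coe.1 hu)
      refine mem_coe.2 (mem_filter.2 ⟨mem_univ _, ?_⟩)
      have hu3 : cel (grp u) k = u := by
        rw [← hu2]
        exact cel_grp_sub u
      rw [hu3]
      exact hu1
    · intro u hu u' hu' hg
      obtain ⟨-, hu2⟩ := mem_filter.1 (mem_coe.1 hu)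
      obtain ⟨-, hu2'⟩ := mem_filter.1 (mem_coe.1 hu')
      have hg' : grp u = grp u' := hg
      have hs : sub u = sub u' := hu2.trans hu2'.symm
      rw [← cel_grp_sub u, ← cel_grp_sub u', hg', hs]
  have h3 : 2 * (∑ k : Fin K, (univ.filter fun v : Fin w => cel v k ∈ U0).card) + 2 * K ≤ w * K := by
    have h4 : ∑ k : Fin K, (2 * (univ.filter fun v : Fin w => cel v k ∈ U0).card + 2) ≤
        ∑ _k : Fin K, w := sum_le_sum fun k _ => h1 k
    rw [sum_add_distrib, ← mul_sum, sum_const, sum_const, card_univ, Fintype.card_fin,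
      smul_eq_mul, smul_eq_mul, mul_comm K 2, mul_comm K w] at h4
    exact h4
  omega

theorem theavy_split {l w K p : ℕ} [Fact p.Prime] {S : Type}
    (B : Prog (Entry l w K p) (ZMod p) S) (R r t : ℕ) (ht : 0 < t) (hK : 0 < K)
    (hw : 64 * (t * K + R) ≤ w * K)
    (D : Lab l (w * K) p) (hD : THeavy B r (2 ^ l) (2 * t * K + R) D) :
    ∃ (w1 w2 : List (Frame (Entry l w K p) (ZMod p) S)) (w3 : Tree (Entry l w K p) (ZMod p) S)
      (q1 q2 : S) (i : Fin l) (k : Fin K) (U : Finset (Fin w)), w ≤ 2 * U.card + 1 ∧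
      CRun B (inp D) B.start w1 q1 ∧ CRun B (inp D) q1 w2 q2 ∧ Run B (inp D) q2 w3 ∧
      (treads (whole w1 w2 w3) \ relevant (inp D)).encard ≤ r ∧
      (∃ T : Finset (Fin (w * K)), T.card = 2 * t * K + R ∧ ∀ v ∈ T,
        ((i.succ.castSucc, v, argD D i.succ.castSucc v) : Entry l w K p) ∈ creads w2) ∧
      (∀ v ∈ U, ((i.castSucc.castSucc, cel v k, argD D i.castSucc.castSucc (cel v k)) :
        Entry l w K p) ∉ creads w2) := by
  classical
  obtain ⟨T, hacc, hr, hlen, hrd⟩ := hD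
  have htK : 0 < t * K := Nat.mul_pos ht hK
  have e2 : 2 * t * K = 2 * (t * K) := by ring
  have hseen : tseen (tcol D) l T = treadAt D T := by
    ext v
    have := mem_tseen_tcol D (Fin.last l).castSucc v T
    have hl : (((Fin.last l).castSucc : Fin (l + 2)) : ℕ) = l := rfl
    rw [hl] at this
    rw [this]
    unfold treadAt
    simp
  obtain ⟨i, hil, c1, c2, t3, hs, h1, h2⟩ := window_tree (tcol D) (2 * t * K + R)
    (w * K - w * K / 2) l (by omega) (by omega) T (by rw [hseen]; exact hrd) hlen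
  subst hs
  obtain ⟨q1, hs1, h23⟩ := (run_fill B (inp D) _ _ _).1 hacc
  obtain ⟨q2, hs2, h3⟩ := (run_fill B (inp D) _ _ _).1 h23
  obtain ⟨X, hX, hXc⟩ := exists_subset_card_eq h1
  obtain ⟨k, U, hU, hUk⟩ := exists_cell hK (cseen (tcol D) i c2)ᶜ (by
    rw [card_compl, Fintype.card_fin]
    omega)
  refine ⟨c1, c2, t3, q1, q2, ⟨i, hil⟩, k, U, hU, hs1, hs2, h3, hr,
    ⟨X, hXc, fun v hv => ?_⟩, fun v hv hm => ?_⟩
  · exact (mem_cseen_tcol D (Fin.succ ⟨i, hil⟩).castSucc v c2).1 (hX hv)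
  · have := (mem_cseen_tcol D (Fin.castSucc ⟨i, hil⟩).castSucc (cel v k) c2).2 hm
    exact (mem_compl.1 (hUk v hv)) this

theorem theavy_card {l w K p : ℕ} [Fact p.Prime] {S : Type} [Fintype S] (hp : 3 * w ≤ p)
    (B : Prog (Entry l w K p) (ZMod p) S) (A R r t : ℕ) (ht : 0 < t) (hK : 0 < K)
    (hw : 64 * (t * K + R) ≤ w * K)
    (hB : FewWastefulTrees B A R) (G : Finset (Lab l (w * K) p))
    (hG : ∀ D ∈ G, THeavy B r (2 ^ l) (2 * t * K + R) D) :
    G.card * (p - 1) ^ (2 * t) ≤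
      3 ^ (2 * t) * (K * ((Fintype.card S) ^ 2 * l * ((A + 1) * (2 * r + 1)) ^ t *
        (p - 1) ^ ((l + 2) * (w * K)))) := by
  classical
  rcases G.eq_empty_or_nonempty with h0 | ⟨D0, hD0⟩
  · simp [h0]
  have hwt : 64 * t ≤ w := by
    have h1 : 64 * t * K ≤ w * K := by
      calc 64 * t * K = 64 * (t * K) := by ring
        _ ≤ 64 * (t * K + R) := by omega
        _ ≤ w * K := hw
    exact Nat.le_of_mul_le_mul_right h1 hK
  have key := fun D (hD : D ∈ G) => theavy_split B R r t ht hK hw D (hG D hD)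
  obtain ⟨a1, a2, a3, b1, b2, i0, k0, U0, -⟩ := key D0 hD0
  have : Nonempty S := ⟨b1⟩
  have : Nonempty (Fin l) := ⟨i0⟩
  have : Nonempty (Fin K) := ⟨k0⟩
  have : Nonempty (Tree (Entry l w K p) (ZMod p) S) := ⟨a3⟩
  choose! w1 w2 w3 q1 q2 i k U hh using key
  set X := (Fintype.card S) ^ 2 * l * ((A + 1) * (2 * r + 1)) ^ t * (p - 1) ^ ((l + 2) * (w * K))
    with hX
  set w' := w / 2 with hw'
  -- each set of `2 t` nodes
  have hone : ∀ Y ∈ powersetCard (2 * t) (univ : Finset (Fin w)),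
      (G.filter (fun D => Y ⊆ U D)).card * (p - 1) ^ (2 * t) ≤ K * X := by
    intro Y hY
    have hYc := (mem_powersetCard.1 hY).2
    have hk : ∀ k' : Fin K, ((G.filter (fun D => Y ⊆ U D)).filter (fun D => k D = k')).card *
        (p - 1) ^ (2 * t) ≤ X := by
      intro k'
      refine tclass_count hp B A R r t (by omega) hB k' Y hYc _ w1 w2 w3 q1 q2 i
        ?_ ?_ ?_ ?_ ?_ ?_
      · intro D hD; exact (hh D (mem_filter.1 (mem_filter.1 hD).1).1).2.1
      · intro D hD; exact (hh D (mem_filter.1 (mem_filter.1 hD).1).1).2.2.1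
      · intro D hD; exact (hh D (mem_filter.1 (mem_filter.1 hD).1).1).2.2.2.1
      · intro D hD; exact (hh D (mem_filter.1 (mem_filter.1 hD).1).1).2.2.2.2.1
      · intro D hD; exact (hh D (mem_filter.1 (mem_filter.1 hD).1).1).2.2.2.2.2.1
      · intro D hD v hv
        have h1 := (hh D (mem_filter.1 (mem_filter.1 hD).1).1).2.2.2.2.2.2 v
          ((mem_filter.1 (mem_filter.1 hD).1).2 hv)
        rw [(mem_filter.1 hD).2] at h1
        exact h1
    rw [card_eq_sum_card_fiberwise (f := fun D => k D) (t := univ) (fun _ _ => mem_univ _),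
      sum_mul]
    calc ∑ k' : Fin K, ((G.filter (fun D => Y ⊆ U D)).filter (fun D => k D = k')).card *
          (p - 1) ^ (2 * t) ≤ ∑ _k' : Fin K, X := sum_le_sum fun k' _ => hk k'
      _ = K * X := by rw [sum_const, card_univ, Fintype.card_fin, smul_eq_mul]
  -- double counting
  have hdc : ∑ Y ∈ powersetCard (2 * t) (univ : Finset (Fin w)),
        (G.filter (fun D => Y ⊆ U D)).card =
      ∑ D ∈ G, ((powersetCard (2 * t) (univ : Finset (Fin w))).filter (fun Y => Y ⊆ U D)).card :=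
    sum_card_bipartiteAbove_eq_sum_card_bipartiteBelow _
  have hlow : ∀ D ∈ G, w'.choose (2 * t) ≤
      ((powersetCard (2 * t) (univ : Finset (Fin w))).filter (fun Y => Y ⊆ U D)).card := by
    intro D hD
    have h1 : ((powersetCard (2 * t) (univ : Finset (Fin w))).filter (fun Y => Y ⊆ U D)) =
        powersetCard (2 * t) (U D) := by
      ext Y
      simp only [mem_filter, mem_powersetCard]
      constructor
      · rintro ⟨⟨_, h⟩, h'⟩; exact ⟨h', h⟩
      · rintro ⟨h, h'⟩; exact ⟨⟨subset_univ _, h'⟩, h⟩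
    rw [h1, card_powersetCard]
    have h2 := (hh D hD).1
    exact Nat.choose_le_choose (2 * t) (by omega)
  have h1 : G.card * w'.choose (2 * t) * (p - 1) ^ (2 * t) ≤ w.choose (2 * t) * (K * X) := by
    calc G.card * w'.choose (2 * t) * (p - 1) ^ (2 * t)
        ≤ (∑ Y ∈ powersetCard (2 * t) (univ : Finset (Fin w)),
            (G.filter (fun D => Y ⊆ U D)).card) * (p - 1) ^ (2 * t) := by
          refine Nat.mul_le_mul_right _ ?_
          rw [hdc, ← smul_eq_mul, ← sum_const]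
          exact sum_le_sum hlow
      _ = ∑ Y ∈ powersetCard (2 * t) (univ : Finset (Fin w)),
            (G.filter (fun D => Y ⊆ U D)).card * (p - 1) ^ (2 * t) := by
          rw [sum_mul]
      _ ≤ ∑ Y ∈ powersetCard (2 * t) (univ : Finset (Fin w)), K * X := sum_le_sum hone
      _ = w.choose (2 * t) * (K * X) := by
          rw [sum_const, card_powersetCard, card_univ, Fintype.card_fin, smul_eq_mul]
  have h2 := choose_half w w' (2 * t) (by omega) (by omega)
  have hpos : 0 < w'.choose (2 * t) := Nat.choose_pos (by omega)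
  have h3 : w'.choose (2 * t) * (G.card * (p - 1) ^ (2 * t)) ≤
      w'.choose (2 * t) * (3 ^ (2 * t) * (K * X)) := by
    calc w'.choose (2 * t) * (G.card * (p - 1) ^ (2 * t)) =
        G.card * w'.choose (2 * t) * (p - 1) ^ (2 * t) := by ring
      _ ≤ w.choose (2 * t) * (K * X) := h1
      _ ≤ (3 ^ (2 * t) * w'.choose (2 * t)) * (K * X) := Nat.mul_le_mul_right _ h2
      _ = _ := by ring
  exact Nat.le_of_mul_le_mul_left h3 hpos

/-- The heavy labelings are at most a `2 ^ (-t)` part. -/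
theorem theavy_small {l t R w K A r p : ℕ} [Fact p.Prime] {S : Type} [Fintype S]
    (ht : 0 < t) (hl : l ≤ 2 ^ t) (hK0 : 0 < K) (hK : K ≤ 2 ^ t)
    (hW : 128 * (t * K + R) ≤ w * K) (hp : 3 * w ≤ p)
    (hr : 288 * ((A + 1) * (2 * r + 1)) ≤ (p - 1) ^ 2)
    (B : Prog (Entry l w K p) (ZMod p) S) (hS : Fintype.card S ≤ 2 ^ t)
    (hB : FewWastefulTrees B A R)
    (G : Finset (Lab l (w * K) p)) (hG : ∀ D ∈ G, THeavy B r (2 ^ l) (2 * t * K + R) D) :
    2 ^ t * G.card ≤ Fintype.card (Lab l (w * K) p) := by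
  have h := theavy_card hp B A R r t ht hK0 (by omega) hB G hG
  have hpp : 0 < p - 1 := by
    have := (Fact.out : p.Prime).one_lt
    omega
  rw [card_lab]
  obtain ⟨Q, hQ⟩ : ∃ Q, Q = (A + 1) * (2 * r + 1) := ⟨_, rfl⟩
  rw [← hQ] at h hr
  obtain ⟨P, hP⟩ : ∃ P, P = (p - 1) ^ ((l + 2) * (w * K)) := ⟨_, rfl⟩
  rw [← hP] at h ⊢
  have e9 : (3 : ℕ) ^ (2 * t) = 9 ^ t := by rw [pow_mul]; norm_num
  have e8 : (2 : ℕ) ^ t * (2 ^ t * ((2 ^ t) ^ 2 * 2 ^ t)) = 32 ^ t := by
    calc (2 : ℕ) ^ t * (2 ^ t * ((2 ^ t) ^ 2 * 2 ^ t)) = (2 ^ t) ^ 5 := by ring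
      _ = (2 ^ 5) ^ t := by rw [← pow_mul, ← pow_mul, mul_comm]
      _ = 32 ^ t := by norm_num
  have h3 : (2 ^ t * G.card) * (p - 1) ^ (2 * t) ≤ P * (p - 1) ^ (2 * t) := by
    calc (2 ^ t * G.card) * (p - 1) ^ (2 * t) = 2 ^ t * (G.card * (p - 1) ^ (2 * t)) := by ring
      _ ≤ 2 ^ t * (3 ^ (2 * t) * (K * ((Fintype.card S) ^ 2 * l * Q ^ t * P))) :=
          Nat.mul_le_mul_left _ h
      _ ≤ 2 ^ t * (3 ^ (2 * t) * (2 ^ t * ((2 ^ t) ^ 2 * 2 ^ t * Q ^ t * P))) := by
          gcongr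
      _ = (2 ^ t * (2 ^ t * ((2 ^ t) ^ 2 * 2 ^ t))) * 9 ^ t * Q ^ t * P := by
          rw [e9]; ring
      _ = (288 * Q) ^ t * P := by
          rw [e8, mul_pow, show (288 : ℕ) = 32 * 9 from rfl, mul_pow]
      _ ≤ ((p - 1) ^ 2) ^ t * P := Nat.mul_le_mul_right _ (Nat.pow_le_pow_left hr t)
      _ = _ := by rw [← pow_mul]; ring
  exact Nat.le_of_mul_le_mul_right h3 (pow_pos hpp (2 * t))

/-- A tree which does not read the relevant entry of node `v` of level `l` accepts `bad D v`. -/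
theorem tacc_bad {l w K p : ℕ} {S : Type} (B : Prog (Entry l w K p) (ZMod p) S) (D : Lab l (w * K) p)
    (T : Tree (Entry l w K p) (ZMod p) S) (hacc : AccTree B (inp D) T) (v : Fin (w * K))
    (hv : v ∉ treadAt D T) : AccTree B (bad D v) T := by
  classical
  refine run_congr B (inp D) (bad D v) _ _ hacc (fun e he => ?_)
  unfold bad
  split_ifs with hif
  · obtain ⟨e1, e2, e3⟩ := e
    simp only at hif
    obtain ⟨h1, h2⟩ := hif
    subst h1
    subst h2
    unfold inp
    rw [if_neg]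
    intro h3
    apply hv
    unfold treadAt
    refine mem_filter.2 ⟨mem_univ _, ?_⟩
    simp only at h3
    rw [← h3]
    exact he
  · rfl

end Pool.Agent.UY
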